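import Pool.Agent.N136.QL.FLC

/-! # A fundamental lemma for an arbitrary set of primes and one class modulo each of them -/

set_option autoImplicit false

namespace Pool.Agent.L5helper69.SR

open Finset Pool.Agent.N728.QL Pool.Agent.N136.QL

lemma prod_ge (y : ℕ) (hy : 1 ≤ y) (S : Finset ℕ) (hS : ∀ p ∈ S, p.Prime ∧ p ≤ y) :
    1 / (y : ℝ) ≤ ∏ p ∈ S, (1 - 1 / (p : ℝ)) := by
  have h1 : ∀ n : ℕ, 1 ≤ n → ∏ m ∈ Icc 2 n, (1 - 1 / (m : ℝ)) = 1 / (n : ℝ) := by
    intro n hn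
    induction n, hn using Nat.le_induction with
    | base => simp
    | succ n hn ih =>
      rw [Finset.prod_Icc_succ_top (by omega), ih]
      have h0 : (0 : ℝ) < n := by exact_mod_cast hn
      push_cast
      field_simp
      ring
  rw [← h1 y hy]
  have hsub : S ⊆ Icc 2 y := by
    intro p hp
    rw [mem_Icc]
    exact ⟨(hS p hp).1.two_le, (hS p hp).2⟩
  have hb : ∀ m ∈ Icc 2 y, 0 ≤ 1 - 1 / (m : ℝ) ∧ 1 - 1 / (m : ℝ) ≤ 1 := by
    intro m hm
    have h2 : (2 : ℝ) ≤ m := by exact_mod_cast (mem_Icc.1 hm).1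
    have h3 : 1 / (m : ℝ) ≤ 1 := by
      rw [div_le_one (by linarith)]; linarith
    have h4 : 0 ≤ 1 / (m : ℝ) := by positivity
    constructor <;> linarith
  rw [← prod_sdiff hsub]
  refine mul_le_of_le_one_left (prod_nonneg fun p hp => (hb p (hsub hp)).1) ?_
  exact prod_le_one (fun p hp => (hb p (mem_sdiff.1 hp).1).1) fun p hp => (hb p (mem_sdiff.1 hp).1).2

/-- **Fundamental lemma.** `S` any set of primes up to `y`, one residue class `c p` modulo each, an
interval with at least `y ^ C₀` integers. -/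
theorem sieve (ε : ℝ) (hε : 0 < ε) : ∃ C₀ y₀ : ℕ, ∀ y : ℕ, y₀ ≤ y → ∀ S : Finset ℕ,
    (∀ p ∈ S, p.Prime ∧ p ≤ y) → ∀ (c : ℕ → ℕ) (a K : ℕ), y ^ C₀ ≤ K →
    (((Ico a (a + K)).filter (fun k => ∀ p ∈ S, ¬ k ≡ c p [MOD p])).card : ℝ) ≤
      (1 + ε) * K * ∏ p ∈ S, (1 - 1 / (p : ℝ)) ∧
    (1 - ε) * K * ∏ p ∈ S, (1 - 1 / (p : ℝ)) ≤
      (((Ico a (a + K)).filter (fun k => ∀ p ∈ S, ¬ k ≡ c p [MOD p])).card : ℝ) := by
  classical
  obtain ⟨C, hC, H⟩ := t_FLC
  obtain ⟨b1, hb1⟩ := exists_pow_lt_of_lt_one (half_pos hε) (show (1 / 2 : ℝ) < 1 by norm_num)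
  obtain ⟨b, hb⟩ : ∃ b, b = max C b1 := ⟨_, rfl⟩
  have hbC : C ≤ b := hb ▸ le_max_left _ _
  have hbε : (1 / 2 : ℝ) ^ b ≤ ε / 2 :=
    (pow_le_pow_of_le_one (by norm_num) (by norm_num) (hb ▸ le_max_right _ _)).trans hb1.le
  obtain ⟨y1, hy1⟩ := exists_nat_ge (2 / ε)
  refine ⟨C * b + 2, max 2 y1, fun y hy S hS c a K hK => ?_⟩
  have hy2 : 2 ≤ y := le_trans (le_max_left _ _) hy
  have hyr : (2 : ℝ) ≤ y := by exact_mod_cast hy2
  have hye : 2 / ε ≤ y := hy1.trans (by exact_mod_cast (le_trans (le_max_right _ _) hy))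
  set Om : ℕ → Finset ℕ := fun p => if p ∈ S then {c p % p} else ∅ with hOm
  have h1 := H b y Om ((a : ℤ) - 1) ((a : ℤ) + K - 1) hbC hy2 ?_ (by omega)
  swap
  · intro p hp _
    by_cases hpS : p ∈ S
    · simp only [hOm, if_pos hpS, card_singleton]
      refine ⟨?_, by norm_num⟩
      intro x hx
      rw [mem_singleton] at hx
      rw [mem_range, hx]
      exact Nat.mod_lt _ hp.pos
    · simp only [hOm, if_neg hpS, card_empty]
      exact ⟨empty_subset _, by norm_num⟩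
  have hprod : ∏ p ∈ (Ioc 0 y).filter Nat.Prime, (1 - ((Om p).card : ℝ) / p) =
      ∏ p ∈ S, (1 - 1 / (p : ℝ)) := by
    have hsub : S ⊆ (Ioc 0 y).filter Nat.Prime := by
      intro p hp
      rw [mem_filter, mem_Ioc]
      exact ⟨⟨(hS p hp).1.pos, (hS p hp).2⟩, (hS p hp).1⟩
    rw [← prod_subset hsub (f := fun p => 1 - ((Om p).card : ℝ) / p)]
    · refine prod_congr rfl fun p hp => ?_
      simp only [hOm, if_pos hp, card_singleton, Nat.cast_one]
    · intro p _ hp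
      simp only [hOm, if_neg hp, card_empty, Nat.cast_zero, zero_div, sub_zero]
  have hcard : ((Ioc ((a : ℤ) - 1) ((a : ℤ) + K - 1)).filter
      (fun t : ℤ => ∀ p : ℕ, p.Prime → p ≤ y → (t % p).toNat ∉ Om p)).card =
      ((Ico a (a + K)).filter (fun k => ∀ p ∈ S, ¬ k ≡ c p [MOD p])).card := by
    symm
    refine card_bij (fun k _ => (k : ℤ)) ?_ ?_ ?_
    · intro k hk
      rw [mem_filter, mem_Ico] at hk
      rw [mem_filter, mem_Ioc]
      refine ⟨by omega, fun p hp _ hmem => ?_⟩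
      by_cases hpS : p ∈ S
      · simp only [hOm, if_pos hpS, mem_singleton] at hmem
        have e : ((k : ℤ) % p).toNat = k % p := by
          rw [← Int.natCast_mod, Int.toNat_natCast]
        rw [e] at hmem
        exact hk.2 p hpS hmem
      · simp only [hOm, if_neg hpS] at hmem
        exact absurd hmem (notMem_empty _)
    · intro k _ k' _ h
      exact_mod_cast h
    · intro t ht
      rw [mem_filter, mem_Ioc] at ht
      obtain ⟨k, rfl⟩ := Int.eq_ofNat_of_zero_le (show 0 ≤ t by omega)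
      refine ⟨k, ?_, rfl⟩
      rw [mem_filter, mem_Ico]
      refine ⟨by omega, fun p hp hmod => ?_⟩
      refine ht.2 p (hS p hp).1 (hS p hp).2 ?_
      have e : (((k : ℕ) : ℤ) % p).toNat = k % p := by
        rw [← Int.natCast_mod, Int.toNat_natCast]
      simp only [hOm, if_pos hp, mem_singleton]
      rw [e]
      exact hmod
  rw [hprod, hcard] at h1
  have hlen : (((a : ℤ) + K - 1 : ℤ) : ℝ) - (((a : ℤ) - 1 : ℤ) : ℝ) = K := by
    push_cast
    ring
  rw [hlen] at h1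
  set V := ∏ p ∈ S, (1 - 1 / (p : ℝ)) with hV
  have hVy : 1 / (y : ℝ) ≤ V := prod_ge y (by omega) S hS
  have hV0 : 0 < V := lt_of_lt_of_le (by positivity) hVy
  have hKr : (y : ℝ) ^ (C * b + 2) ≤ K := by exact_mod_cast hK
  have hK0 : (0 : ℝ) < K := lt_of_lt_of_le (by positivity) hKr
  have herr : (y : ℝ) ^ (C * b) ≤ ε / 2 * (K * V) := by
    have h2 : (y : ℝ) ^ (C * b) * y ≤ K * V := by
      calc (y : ℝ) ^ (C * b) * y = (y : ℝ) ^ (C * b + 2) * (1 / y) := by
            rw [pow_add]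
            field_simp
        _ ≤ K * V := mul_le_mul hKr hVy (by positivity) hK0.le
    have h3 : (y : ℝ) ^ (C * b) * (2 / ε) ≤ K * V :=
      le_trans (mul_le_mul_of_nonneg_left hye (by positivity)) h2
    have h4 : (y : ℝ) ^ (C * b) = ε / 2 * ((y : ℝ) ^ (C * b) * (2 / ε)) := by
      field_simp
    rw [h4]
    exact mul_le_mul_of_nonneg_left h3 (by positivity)
  have hmain : (1 / 2 : ℝ) ^ b * (K * V) ≤ ε / 2 * (K * V) :=
    mul_le_mul_of_nonneg_right hbε (by positivity)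
  have h5 := abs_le.1 h1
  constructor
  · nlinarith [h5.2]
  · nlinarith [h5.1]

end Pool.Agent.L5helper69.SR
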